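import Pool.Agent.Work.MP_4b551e_an.Bd.B10

/-!
# MP_4b551e_an, item Y3: depth of the pockets (helper86)
-/

open MeasureTheory Set Metric
open scoped ENNReal NNReal Pointwise RealInnerProductSpace

namespace Pool.Agent.Robin

namespace Y3

theorem inner_eq (x y : E2) : ⟪x, y⟫ = x 0 * y 0 + x 1 * y 1 := by
  rw [PiLp.inner_apply, Fin.sum_univ_two]
  simp [mul_comm]

theorem sq_eq (ν : E2) : ν 0 ^ 2 + ν 1 ^ 2 = ‖ν‖ ^ 2 := by
  rw [← real_inner_self_eq_norm_sq, inner_eq]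
  ring

/-- Orthonormal pair. -/
structure ON (t ν : E2) : Prop where
  nt : ‖t‖ = 1
  nn : ‖ν‖ = 1
  tn : ⟪t, ν⟫ = 0

theorem ON.neg {t ν : E2} (h : ON t ν) : ON (-t) ν :=
  ⟨by rw [norm_neg, h.nt], h.nn, by rw [inner_neg_left, h.tn, neg_zero]⟩

theorem ON.rot {t ν : E2} (h : ON t ν) : t = rot ν ∨ ν = Robin.rot t := by
  have h1 := sq_eq t
  have h2 := sq_eq ν
  have h3 := h.tn
  rw [h.nt, one_pow] at h1
  rw [h.nn, one_pow] at h2
  rw [inner_eq] at h3
  -- `e = t 1 * ν 0 - t 0 * ν 1` is `± 1`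
  have h4 : (t 1 * ν 0 - t 0 * ν 1) ^ 2 = 1 := by
    have : (t 1 * ν 0 - t 0 * ν 1) ^ 2 =
        (t 0 ^ 2 + t 1 ^ 2) * (ν 0 ^ 2 + ν 1 ^ 2) - (t 0 * ν 0 + t 1 * ν 1) ^ 2 := by ring
    rw [this, h1, h2, h3]
    norm_num
  have h4' : (t 1 * ν 0 - t 0 * ν 1 - 1) * (t 1 * ν 0 - t 0 * ν 1 + 1) = 0 := by
    linear_combination h4
  rcases mul_eq_zero.1 h4' with h5 | h5
  · left
    have e0 : t 0 = -(ν 1) := by
      linear_combination (-(ν 1)) * h5 + (ν 0) * h3 - (t 0) * h2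
    have e1 : t 1 = ν 0 := by
      linear_combination (ν 0) * h5 + (ν 1) * h3 - (t 1) * h2
    ext i
    fin_cases i
    · simpa [Robin.rot] using e0
    · simpa [Robin.rot] using e1
  · right
    have e0 : ν 0 = -(t 1) := by
      linear_combination (t 1) * h5 + (t 0) * h3 - (ν 0) * h1
    have e1 : ν 1 = t 0 := by
      linear_combination (-(t 0)) * h5 + (t 1) * h3 - (ν 1) * h1
    ext i
    fin_cases i
    · simpa [Robin.rot] using e0
    · simpa [Robin.rot] using e1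

/-- Pythagoras in an orthonormal frame. -/
theorem ON.sq {t ν : E2} (h : ON t ν) (v : E2) : ⟪v, t⟫ ^ 2 + ⟪v, ν⟫ ^ 2 = ‖v‖ ^ 2 := by
  have h1 := sq_eq t
  have h2 := sq_eq ν
  rw [h.nt, one_pow] at h1
  rw [h.nn, one_pow] at h2
  rw [← sq_eq v, inner_eq, inner_eq]
  rcases h.rot with e | e
  · have e0 : t 0 = -(ν 1) := by rw [e]; simp [Robin.rot]
    have e1 : t 1 = ν 0 := by rw [e]; simp [Robin.rot]
    rw [e0, e1]
    linear_combination (v 0 ^ 2 + v 1 ^ 2) * h2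
  · have e0 : ν 0 = -(t 1) := by rw [e]; simp [Robin.rot]
    have e1 : ν 1 = t 0 := by rw [e]; simp [Robin.rot]
    rw [e0, e1]
    linear_combination (v 0 ^ 2 + v 1 ^ 2) * h1

/-- Expansion in an orthonormal frame. -/
theorem ON.expand {t ν : E2} (h : ON t ν) (v : E2) : v = ⟪v, t⟫ • t + ⟪v, ν⟫ • ν := by
  have h1 := sq_eq t
  have h2 := sq_eq ν
  rw [h.nt, one_pow] at h1
  rw [h.nn, one_pow] at h2
  rw [inner_eq, inner_eq]
  rcases h.rot with e | e
  · have e0 : t 0 = -(ν 1) := by rw [e]; simp [Robin.rot]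
    have e1 : t 1 = ν 0 := by rw [e]; simp [Robin.rot]
    ext i
    fin_cases i
    · simp only [e0, e1, Fin.zero_eta, PiLp.add_apply, PiLp.smul_apply, smul_eq_mul]
      linear_combination (-(v 0)) * h2
    · simp only [e0, e1, Fin.mk_one, PiLp.add_apply, PiLp.smul_apply, smul_eq_mul]
      linear_combination (-(v 1)) * h2
  · have e0 : ν 0 = -(t 1) := by rw [e]; simp [Robin.rot]
    have e1 : ν 1 = t 0 := by rw [e]; simp [Robin.rot]
    ext i
    fin_cases i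
    · simp only [e0, e1, Fin.zero_eta, PiLp.add_apply, PiLp.smul_apply, smul_eq_mul]
      linear_combination (-(v 0)) * h1
    · simp only [e0, e1, Fin.mk_one, PiLp.add_apply, PiLp.smul_apply, smul_eq_mul]
      linear_combination (-(v 1)) * h1

theorem exists_dirv {n : E2} (hn : ‖n‖ = 1) : ∃ θ : ℝ, n = dirv θ := by
  rw [EuclideanSpace.norm_eq, Real.sqrt_eq_one, Fin.sum_univ_two] at hn
  simp only [Real.norm_eq_abs, sq_abs] at hn
  set z : ℂ := ⟨n 0, n 1⟩ with hz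
  have hz1 : ‖z‖ = 1 := by
    rw [Complex.norm_def, Complex.normSq_apply, Real.sqrt_eq_one]
    simp only [hz]
    nlinarith
  refine ⟨z.arg, ?_⟩
  have h := Complex.norm_mul_exp_arg_mul_I z
  rw [hz1, Complex.ofReal_one, one_mul, Complex.exp_mul_I] at h
  have h0 : Real.cos z.arg = n 0 := by
    have := congrArg Complex.re h
    simpa [hz, Complex.cos_ofReal_re, Complex.sin_ofReal_im, Complex.cos_ofReal_im,
      Complex.sin_ofReal_re] using this
  have h1 : Real.sin z.arg = n 1 := by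
    have := congrArg Complex.im h
    simpa [hz, Complex.cos_ofReal_re, Complex.sin_ofReal_im, Complex.cos_ofReal_im,
      Complex.sin_ofReal_re] using this
  ext i
  fin_cases i
  · simpa [dirv] using h0.symm
  · simpa [dirv] using h1.symm

theorem dirv_add (α φ : ℝ) :
    Real.cos φ • dirv α + Real.sin φ • rot (dirv α) = dirv (α + φ) := by
  ext j
  fin_cases j
  · simp [dirv, Robin.rot, Real.cos_add]
    ring
  · simp [dirv, Robin.rot, Real.sin_add]
    ring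

/-- A point with positive coordinates in the frame `dirv α, rot (dirv α)`. -/
theorem cone_of_pos (c y : E2) (α A B : ℝ) (hA : 0 < A) (hB : 0 < B)
    (h : y - c = A • dirv α + B • rot (dirv α)) : y ∈ cone c α (α + Real.pi / 2) := by
  have hd : 0 < Real.sqrt (A ^ 2 + B ^ 2) := Real.sqrt_pos.2 (by positivity)
  have hq : 0 < Real.sqrt (1 + (B / A) ^ 2) := Real.sqrt_pos.2 (by positivity)
  have hdq : Real.sqrt (A ^ 2 + B ^ 2) = A * Real.sqrt (1 + (B / A) ^ 2) := by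
    rw [show A ^ 2 + B ^ 2 = A ^ 2 * (1 + (B / A) ^ 2) by field_simp,
      Real.sqrt_mul (by positivity), Real.sqrt_sq hA.le]
  refine ⟨Real.sqrt (A ^ 2 + B ^ 2), α + Real.arctan (B / A), hd, ?_, ?_, ?_⟩
  · have : 0 < Real.arctan (B / A) := Real.arctan_pos.2 (by positivity)
    linarith
  · have := Real.arctan_lt_pi_div_two (B / A)
    linarith
  · rw [← dirv_add, Real.cos_arctan, Real.sin_arctan, hdq, smul_add, smul_smul, smul_smul]
    have e1 : A * Real.sqrt (1 + (B / A) ^ 2) * (1 / Real.sqrt (1 + (B / A) ^ 2)) = A := by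
      field_simp
    have e2 : A * Real.sqrt (1 + (B / A) ^ 2) * (B / A / Real.sqrt (1 + (B / A) ^ 2)) = B := by
      field_simp
    rw [e1, e2, ← h]
    abel

/-- The open quadrant is a cone of angle `π / 2`. -/
theorem ON.quad {t ν : E2} (h : ON t ν) (c : E2) : ∃ α : ℝ, ∀ y : E2,
    0 < ⟪y - c, t⟫ → 0 < ⟪y - c, ν⟫ → y ∈ cone c α (α + Real.pi / 2) := by
  rcases h.rot with e | e
  · obtain ⟨α, hα⟩ := exists_dirv h.nn
    refine ⟨α, fun y h1 h2 => cone_of_pos c y α ⟪y - c, ν⟫ ⟪y - c, t⟫ h2 h1 ?_⟩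
    rw [← hα, ← e, add_comm]
    exact h.expand _
  · obtain ⟨α, hα⟩ := exists_dirv h.nt
    refine ⟨α, fun y h1 h2 => cone_of_pos c y α ⟪y - c, t⟫ ⟪y - c, ν⟫ h1 h2 ?_⟩
    rw [← hα, ← e]
    exact h.expand _

/-- Coordinates with origin `a` in the frame `t, ν`. -/
noncomputable def fc (a t ν x : E2) : E2 := !₂[⟪x - a, t⟫, ⟪x - a, ν⟫]

theorem fc_0 (a t ν x : E2) : fc a t ν x 0 = ⟪x - a, t⟫ := rfl

theorem fc_1 (a t ν x : E2) : fc a t ν x 1 = ⟪x - a, ν⟫ := rfl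

theorem continuous_fc (a t ν : E2) : Continuous (fc a t ν) := by
  unfold fc
  fun_prop

theorem ON.dist {t ν : E2} (h : ON t ν) (a x y : E2) :
    Dist.dist (fc a t ν x) (fc a t ν y) = Dist.dist x y := by
  have h1 : Dist.dist (fc a t ν x) (fc a t ν y) ^ 2 = Dist.dist x y ^ 2 := by
    rw [dist_eq_norm, dist_eq_norm, ← h.sq (x - y), ← sq_eq]
    simp only [PiLp.sub_apply, fc_0, fc_1]
    rw [← inner_sub_left, ← inner_sub_left]
    have : x - a - (y - a) = x - y := by abel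
    rw [this]
  exact (sq_eq_sq₀ dist_nonneg dist_nonneg).1 h1

theorem ON.inj {t ν : E2} (h : ON t ν) (a : E2) {x y : E2} (hxy : fc a t ν x = fc a t ν y) :
    x = y := by
  rw [← dist_eq_zero, ← h.dist a, hxy, dist_self]

/-- First exit from an open set. -/
theorem first_exit (R : Set E2) (hR : IsOpen R) (p : ℝ → E2) (hp : ContinuousOn p (Icc 0 1))
    (h0 : p 0 ∈ R) (h1 : p 1 ∉ R) : ∃ τ : ℝ, 0 < τ ∧ τ ≤ 1 ∧ (∀ u ∈ Ico 0 τ, p u ∈ R) ∧
      p τ ∉ R ∧ p τ ∈ closure R := by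
  set S : Set ℝ := Icc 0 1 ∩ p ⁻¹' Rᶜ with hS
  have hSc : IsClosed S := hp.preimage_isClosed_of_isClosed isClosed_Icc hR.isClosed_compl
  have hSne : S.Nonempty := ⟨1, ⟨by norm_num, le_refl 1⟩, h1⟩
  have hSb : BddBelow S := ⟨0, fun x hx => hx.1.1⟩
  have hτ : sInf S ∈ S := hSc.csInf_mem hSne hSb
  set τ := sInf S with hτd
  have hτ0 : 0 < τ := by
    rcases hτ.1.1.lt_or_eq with h | h
    · exact h
    · exact absurd (h ▸ h0) hτ.2
  have hlt : ∀ u ∈ Ico 0 τ, p u ∈ R := by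
    intro u hu
    by_contra hcon
    have : τ ≤ u := csInf_le hSb ⟨⟨hu.1, hu.2.le.trans hτ.1.2⟩, hcon⟩
    exact absurd hu.2 (not_lt.2 this)
  refine ⟨τ, hτ0, hτ.1.2, hlt, hτ.2, ?_⟩
  have hcw : ContinuousWithinAt p (Ico 0 τ) τ :=
    (hp τ hτ.1).mono (fun u hu => ⟨hu.1, hu.2.le.trans hτ.1.2⟩)
  have hcl : τ ∈ closure (Ico 0 τ) := by
    rw [closure_Ico hτ0.ne]
    exact ⟨hτ0.le, le_refl τ⟩
  exact hcw.mem_closure hcl hlt

/-- The region between the two discs. -/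
def Rg (a t ν : E2) (X Y m r s : ℝ) : Set E2 := {x | -X < ⟪x - a, t⟫ ∧ ⟪x - a, t⟫ < m + X ∧
  -s < ⟪x - a, ν⟫ ∧ ⟪x - a, ν⟫ < 0 ∧ r ^ 2 < (⟪x - a, t⟫ + X) ^ 2 + (⟪x - a, ν⟫ + Y) ^ 2 ∧
  r ^ 2 < (⟪x - a, t⟫ - m - X) ^ 2 + (⟪x - a, ν⟫ + Y) ^ 2}

theorem isOpen_Rg (a t ν : E2) (X Y m r s : ℝ) : IsOpen (Rg a t ν X Y m r s) := by
  have c1 : Continuous (fun x : E2 => ⟪x - a, t⟫) := by fun_prop
  have c2 : Continuous (fun x : E2 => ⟪x - a, ν⟫) := by fun_prop
  exact (isOpen_lt continuous_const c1).inter ((isOpen_lt c1 continuous_const).inter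
    ((isOpen_lt continuous_const c2).inter ((isOpen_lt c2 continuous_const).inter
    ((isOpen_lt continuous_const
      (((c1.add continuous_const).pow 2).add ((c2.add continuous_const).pow 2))).inter
      (isOpen_lt continuous_const
      ((((c1.sub continuous_const).sub continuous_const).pow 2).add
        ((c2.add continuous_const).pow 2)))))))

/-- Symmetry of the region. -/
theorem Rg_symm (a t ν : E2) (X Y m r s : ℝ) (h : ON t ν) :
    Rg (a + m • t) (-t) ν X Y m r s = Rg a t ν X Y m r s := by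
  ext x
  have e1 : ⟪x - (a + m • t), -t⟫ = m - ⟪x - a, t⟫ := by
    have : x - (a + m • t) = (x - a) - m • t := by abel
    rw [this, inner_neg_right, inner_sub_left, real_inner_smul_left,
      real_inner_self_eq_norm_sq, h.nt]
    ring
  have e2 : ⟪x - (a + m • t), ν⟫ = ⟪x - a, ν⟫ := by
    have : x - (a + m • t) = (x - a) - m • t := by abel
    rw [this, inner_sub_left, real_inner_smul_left, h.tn]
    ring
  simp only [Rg, mem_ofPred_eq, e1, e2]
  constructor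
  · rintro ⟨h1, h2, h3, h4, h5, h6⟩
    exact ⟨by linarith, by linarith, h3, h4, by nlinarith, by nlinarith⟩
  · rintro ⟨h1, h2, h3, h4, h5, h6⟩
    exact ⟨by linarith, by linarith, h3, h4, by nlinarith, by nlinarith⟩

/-- Numerical conditions. -/
structure Num (X Y m r s : ℝ) : Prop where
  hX : 0 < X
  hs : 0 < s
  hsY : s < Y
  hYr : Y < r
  hm : 0 < m
  cov : (m / 2 + X) ^ 2 + (Y - s) ^ 2 < r ^ 2

/-- A point of the closure of the region, not in the region, below the line, lies on one of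
the circles. -/
theorem exit_pt {a t ν : E2} {X Y m r s : ℝ} (hN : Num X Y m r s) (x : E2)
    (hx : x ∈ closure (Rg a t ν X Y m r s)) (hx' : x ∉ Rg a t ν X Y m r s)
    (hx0 : ⟪x - a, ν⟫ < 0) : -X < ⟪x - a, t⟫ ∧ ⟪x - a, t⟫ < m + X ∧ -s < ⟪x - a, ν⟫ ∧
    (((⟪x - a, t⟫ + X) ^ 2 + (⟪x - a, ν⟫ + Y) ^ 2 = r ^ 2) ∨
      ((⟪x - a, t⟫ - m - X) ^ 2 + (⟪x - a, ν⟫ + Y) ^ 2 = r ^ 2)) := by
  obtain ⟨hX, hs, hsY, hYr, hm, hcov⟩ := hN
  have hcl : closure (Rg a t ν X Y m r s) ⊆ {x | -X ≤ ⟪x - a, t⟫ ∧ ⟪x - a, t⟫ ≤ m + X ∧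
      -s ≤ ⟪x - a, ν⟫ ∧ ⟪x - a, ν⟫ ≤ 0 ∧
      r ^ 2 ≤ (⟪x - a, t⟫ + X) ^ 2 + (⟪x - a, ν⟫ + Y) ^ 2 ∧
      r ^ 2 ≤ (⟪x - a, t⟫ - m - X) ^ 2 + (⟪x - a, ν⟫ + Y) ^ 2} := by
    refine closure_minimal ?_ ?_
    · rintro x ⟨h1, h2, h3, h4, h5, h6⟩
      exact ⟨h1.le, h2.le, h3.le, h4.le, h5.le, h6.le⟩
    · have c1 : Continuous (fun x : E2 => ⟪x - a, t⟫) := by fun_prop
      have c2 : Continuous (fun x : E2 => ⟪x - a, ν⟫) := by fun_prop
      exact (isClosed_le continuous_const c1).inter ((isClosed_le c1 continuous_const).inter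
        ((isClosed_le continuous_const c2).inter ((isClosed_le c2 continuous_const).inter
        ((isClosed_le continuous_const
          (((c1.add continuous_const).pow 2).add ((c2.add continuous_const).pow 2))).inter
          (isClosed_le continuous_const
          ((((c1.sub continuous_const).sub continuous_const).pow 2).add
            ((c2.add continuous_const).pow 2)))))))
  obtain ⟨h1, h2, h3, h4, h5, h6⟩ := hcl hx
  set u := ⟪x - a, t⟫ with hu
  set v := ⟪x - a, ν⟫ with hv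
  have hv1 : 0 < v + Y := by linarith
  have hv2 : v + Y < r := by linarith
  have hv3 : (v + Y) ^ 2 < r ^ 2 := by nlinarith
  have h1' : -X < u := by
    rcases h1.lt_or_eq with h | h
    · exact h
    · exfalso
      rw [← h] at h5
      nlinarith
  have h2' : u < m + X := by
    rcases h2.lt_or_eq with h | h
    · exact h
    · exfalso
      rw [h] at h6
      nlinarith
  have h3' : -s < v := by
    rcases h3.lt_or_eq with h | h
    · exact h
    · exfalso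
      rw [← h] at h5 h6
      have e : (-s + Y) ^ 2 = (Y - s) ^ 2 := by ring
      rw [e] at h5 h6
      rcases le_total u (m / 2) with hh | hh
      · have : (u + X) ^ 2 ≤ (m / 2 + X) ^ 2 := by
          apply pow_le_pow_left₀ (by linarith)
          linarith
        linarith
      · have : (u - m - X) ^ 2 ≤ (m / 2 + X) ^ 2 := by
          rw [show (u - m - X) ^ 2 = (m + X - u) ^ 2 by ring]
          apply pow_le_pow_left₀ (by linarith)
          linarith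
        linarith
  refine ⟨h1', h2', h3', ?_⟩
  by_contra hcon
  push Not at hcon
  apply hx'
  exact ⟨h1', h2', h3', hx0, lt_of_le_of_ne h5 (Ne.symm hcon.1), lt_of_le_of_ne h6 (Ne.symm hcon.2)⟩

theorem fc_self (a t ν : E2) : fc a t ν a = !₂[0, 0] := by
  unfold fc
  simp

theorem ON.fc_add {t ν : E2} (h : ON t ν) (a : E2) (x1 : ℝ) :
    fc a t ν (a + x1 • t) = !₂[x1, 0] := by
  unfold fc
  have : a + x1 • t - a = x1 • t := by abel
  rw [this, real_inner_smul_left, real_inner_smul_left, real_inner_self_eq_norm_sq, h.nt, h.tn]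
  simp

/-- The core: the path `β` in the complement of the closure of `G` starting at a mouth point
cannot reach the left disc. -/
theorem core (hy2 : S_Y2) (hC : CrossLem) {G : Set E2} {ρ : ℝ} (hGo : IsOpen G)
    (hB : Bump ρ G) {a t ν : E2} (hON : ON t ν) {X Y m r s x1 : ℝ} (hN : Num X Y m r s)
    (hlog : 0 ≤ Real.log ρ) (hXY : (r + 2 * Real.log ρ) ^ 2 < X ^ 2 + Y ^ 2)
    (hfar : (m + 2 * X) ^ 2 + Y ^ 2 ≤ ((1 - 1 / Real.log ρ) * ρ) ^ 2)
    (h1ρ : 0 ≤ (1 - 1 / Real.log ρ) * ρ) (hx1 : 0 < x1) (hx1m : x1 < m)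
    (ha : a ∈ closure G) (hGneg : ∀ x ∈ G, ⟪x - a, ν⟫ < 0)
    (ε' : ℝ) (hε' : 0 < ε') (hε'x : ε' ≤ x1 / 2)
    (hball : Disjoint (ball (a + x1 • t) ε') (closure G))
    (hball2 : ∀ z : E2, Dist.dist z !₂[x1, 0] < ε' →
      r ^ 2 < (z 0 + X) ^ 2 + (z 1 + Y) ^ 2 ∧ r ^ 2 < (z 0 - m - X) ^ 2 + (z 1 + Y) ^ 2 ∧
      -X < z 0 ∧ z 0 < m + X)
    (β : ℝ → E2) (hβc : ContinuousOn β (Icc 0 1)) (hβG : ∀ u ∈ Icc (0 : ℝ) 1, β u ∉ closure G)
    (hβ0 : Dist.dist (β 0) (a + x1 • t) < ε')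
    (hβR : ∀ u ∈ Ico (0 : ℝ) 1, β u ∈ Rg a t ν X Y m r s)
    (hβ1 : ⟪β 1 - a, ν⟫ < 0) (hβ2 : -s < ⟪β 1 - a, ν⟫) (hβ3 : -X < ⟪β 1 - a, t⟫)
    (hβ4 : ⟪β 1 - a, t⟫ < m + X)
    (hβ5 : (⟪β 1 - a, t⟫ + X) ^ 2 + (⟪β 1 - a, ν⟫ + Y) ^ 2 = r ^ 2) : False := by
  obtain ⟨hX, hs, hsY, hYr, hm, hcov⟩ := id hN
  have hr : 0 < r := by linarith
  have hrXY : r ^ 2 < X ^ 2 + Y ^ 2 := by nlinarith
  -- choice of `ε`
  have haK : a ∉ β '' Icc 0 1 := by
    rintro ⟨u, hu, hua⟩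
    exact hβG u hu (hua ▸ ha)
  have hK : IsOpen (β '' Icc 0 1)ᶜ := (isCompact_Icc.image_of_continuousOn hβc).isClosed.isOpen_compl
  obtain ⟨ε1, hε1, hb1⟩ := Metric.isOpen_iff.1 hK a haK
  have hO : IsOpen {z : E2 | r ^ 2 < (z 0 + X) ^ 2 + (z 1 + Y) ^ 2 ∧
      r ^ 2 < (z 0 - m - X) ^ 2 + (z 1 + Y) ^ 2 ∧ -X < z 0 ∧ z 0 < m + X ∧ -s < z 1} := by
    have c1 : Continuous (fun x : E2 => x 0) := by fun_prop
    have c2 : Continuous (fun x : E2 => x 1) := by fun_prop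
    exact (isOpen_lt continuous_const
      (((c1.add continuous_const).pow 2).add ((c2.add continuous_const).pow 2))).inter
      ((isOpen_lt continuous_const
      ((((c1.sub continuous_const).sub continuous_const).pow 2).add
        ((c2.add continuous_const).pow 2))).inter
      ((isOpen_lt continuous_const c1).inter
      ((isOpen_lt c1 continuous_const).inter (isOpen_lt continuous_const c2))))
  have h0O : (!₂[0, 0] : E2) ∈ {z : E2 | r ^ 2 < (z 0 + X) ^ 2 + (z 1 + Y) ^ 2 ∧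
      r ^ 2 < (z 0 - m - X) ^ 2 + (z 1 + Y) ^ 2 ∧ -X < z 0 ∧ z 0 < m + X ∧ -s < z 1} := by
    have e0 : (!₂[0, 0] : E2) 0 = 0 := rfl
    have e1 : (!₂[0, 0] : E2) 1 = 0 := rfl
    show r ^ 2 < ((!₂[0, 0] : E2) 0 + X) ^ 2 + ((!₂[0, 0] : E2) 1 + Y) ^ 2 ∧
      r ^ 2 < ((!₂[0, 0] : E2) 0 - m - X) ^ 2 + ((!₂[0, 0] : E2) 1 + Y) ^ 2 ∧
      -X < (!₂[0, 0] : E2) 0 ∧ (!₂[0, 0] : E2) 0 < m + X ∧ -s < (!₂[0, 0] : E2) 1
    rw [e0, e1]
    refine ⟨by nlinarith, by nlinarith, by linarith, by linarith, by linarith⟩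
  obtain ⟨ε2, hε2, hb2⟩ := Metric.isOpen_iff.1 hO _ h0O
  obtain ⟨ε, hεd⟩ : ∃ ε, ε = min ε1 (min ε2 (x1 / 2)) := ⟨_, rfl⟩
  have hε : 0 < ε := by rw [hεd]; exact lt_min hε1 (lt_min hε2 (by linarith))
  have hεa : ε ≤ ε1 := by rw [hεd]; exact min_le_left _ _
  have hεb : ε ≤ ε2 := by rw [hεd]; exact (min_le_right _ _).trans (min_le_left _ _)
  have hεc : ε ≤ x1 / 2 := by rw [hεd]; exact (min_le_right _ _).trans (min_le_right _ _)
  -- the centre of the left disc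
  obtain ⟨c, hc⟩ : ∃ c : E2, c = a - X • t - Y • ν := ⟨_, rfl⟩
  have hνt : ⟪ν, t⟫ = 0 := by rw [real_inner_comm]; exact hON.tn
  have hct : ∀ x : E2, ⟪x - c, t⟫ = ⟪x - a, t⟫ + X := by
    intro x
    have : x - c = (x - a) + X • t + Y • ν := by rw [hc]; abel
    rw [this, inner_add_left, inner_add_left, real_inner_smul_left, real_inner_smul_left,
      real_inner_self_eq_norm_sq, hON.nt, hνt]
    ring
  have hcν : ∀ x : E2, ⟪x - c, ν⟫ = ⟪x - a, ν⟫ + Y := by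
    intro x
    have : x - c = (x - a) + X • t + Y • ν := by rw [hc]; abel
    rw [this, inner_add_left, inner_add_left, real_inner_smul_left, real_inner_smul_left,
      real_inner_self_eq_norm_sq, hON.nn, hON.tn]
    ring
  have hcn : ∀ x : E2, ‖x - c‖ ^ 2 = (⟪x - a, t⟫ + X) ^ 2 + (⟪x - a, ν⟫ + Y) ^ 2 := by
    intro x
    rw [← hON.sq, hct, hcν]
  -- the starting point of `γ`
  obtain ⟨x0, hx0G, hx0a, hx0c⟩ : ∃ x0 ∈ G, Dist.dist x0 a < ε ∧ r + 2 * Real.log ρ < ‖x0 - c‖ := by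
    have hop : IsOpen (ball a ε ∩ {x : E2 | r + 2 * Real.log ρ < ‖x - c‖}) :=
      isOpen_ball.inter (isOpen_lt continuous_const (by fun_prop))
    have hmem : a ∈ ball a ε ∩ {x : E2 | r + 2 * Real.log ρ < ‖x - c‖} := by
      refine ⟨mem_ball_self hε, ?_⟩
      have h1 : ‖a - c‖ ^ 2 = X ^ 2 + Y ^ 2 := by
        rw [hcn, sub_self, inner_zero_left, inner_zero_left]
        ring
      have h2 : (r + 2 * Real.log ρ) ^ 2 < ‖a - c‖ ^ 2 := by rw [h1]; exact hXY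
      exact lt_of_pow_lt_pow_left₀ 2 (norm_nonneg _) h2
    obtain ⟨x0, h1, h2⟩ := mem_closure_iff.1 ha _ hop hmem
    exact ⟨x0, h2, h1.1, h1.2⟩
  have hF : ∀ z : E2, Dist.dist z a < ε → Dist.dist (fc a t ν z) !₂[0, 0] < ε := by
    intro z hz
    rw [← fc_self a t ν, hON.dist]
    exact hz
  have hx0O := hb2 (mem_ball.2 ((hF x0 hx0a).trans_le hεb))
  simp only [mem_ofPred_eq, fc_0, fc_1] at hx0O
  obtain ⟨o1, o2, o3, o4, o5⟩ := hx0O
  have hx0R : x0 ∈ Rg a t ν X Y m r s := ⟨o3, o4, o5, hGneg x0 hx0G, o1, o2⟩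
  have hx0D : x0 ∈ G \ closedBall c r := by
    refine ⟨hx0G, ?_⟩
    rw [mem_closedBall, dist_eq_norm, not_le]
    linarith
  obtain ⟨U, hUd⟩ : ∃ U, U = connectedComponentIn (G \ closedBall c r) x0 := ⟨_, rfl⟩
  have hUo : IsOpen U := by
    rw [hUd]
    exact (hGo.sdiff isClosed_closedBall).connectedComponentIn
  have hx0U : x0 ∈ U := by
    rw [hUd]
    exact mem_connectedComponentIn hx0D
  have hUsub : U ⊆ G \ closedBall c r := by
    rw [hUd]
    exact connectedComponentIn_subset _ _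
  have hUc : IsConnected U := by
    rw [hUd]
    exact isConnected_connectedComponentIn_iff.2 hx0D
  have hUp : IsPathConnected U := hUo.isConnected_iff_isPathConnected.1 hUc
  -- `U` is not contained in the region
  obtain ⟨w, hwU, hwR⟩ : ∃ w ∈ U, w ∉ Rg a t ν X Y m r s := by
    by_contra hcon
    push Not at hcon
    obtain ⟨α, hα⟩ := hON.quad c
    have hpi := Real.pi_pos
    have := hB c x0 r α (α + Real.pi / 2) hr.le (by linarith) le_rfl hx0D
      (by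
        intro x hx
        rw [← hUd] at hx
        obtain ⟨q1, q2, q3, q4, q5, q6⟩ := hcon x hx
        refine hα x ?_ ?_
        · rw [hct]; linarith
        · rw [hcν]; linarith)
      (by
        intro x hx
        rw [← hUd] at hx
        obtain ⟨q1, q2, q3, q4, q5, q6⟩ := hcon x hx
        have h3 : ‖x - c‖ ^ 2 ≤ ((1 - 1 / Real.log ρ) * ρ) ^ 2 := by
          refine le_trans ?_ hfar
          rw [hcn]
          have h4 : (⟪x - a, t⟫ + X) ^ 2 ≤ (m + 2 * X) ^ 2 := by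
            apply pow_le_pow_left₀ (by linarith)
            linarith
          have h5 : (⟪x - a, ν⟫ + Y) ^ 2 ≤ Y ^ 2 := by
            apply pow_le_pow_left₀ (by linarith)
            linarith
          linarith
        exact (sq_le_sq₀ (norm_nonneg _) h1ρ).1 h3)
    linarith
  -- the path `γ`
  obtain ⟨P, hP⟩ := hUp.joinedIn x0 hx0U w hwU
  have hpe : ∀ u ∈ Icc (0 : ℝ) 1, P.extend u ∈ U := by
    intro u hu
    rw [Path.extend_apply P hu]
    exact hP _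
  obtain ⟨τ, hτ0, hτ1, hτ2, hτ3, hτ4⟩ := first_exit _ (isOpen_Rg a t ν X Y m r s)
    P.extend P.continuous_extend.continuousOn (by rw [P.extend_zero]; exact hx0R)
    (by rw [P.extend_one]; exact hwR)
  have hτU : P.extend τ ∈ U := hpe τ ⟨hτ0.le, hτ1⟩
  have hτG := hUsub hτU
  obtain ⟨g1, g2, g3, g4⟩ := exit_pt hN _ hτ4 hτ3 (hGneg _ hτG.1)
  have hτL : r ^ 2 < (⟪P.extend τ - a, t⟫ + X) ^ 2 + (⟪P.extend τ - a, ν⟫ + Y) ^ 2 := by
    rw [← hcn]
    have : r < ‖P.extend τ - c‖ := by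
      have := hτG.2
      rwa [mem_closedBall, dist_eq_norm, not_le] at this
    exact pow_lt_pow_left₀ this hr.le (by norm_num)
  have hτR := g4.resolve_left hτL.ne'
  -- the final contradiction
  obtain ⟨u, hu, u', hu', huu⟩ := hy2 hC X Y m r s ε ε' x1 (fun u => fc a t ν (β u))
    (fun u => fc a t ν (P.extend (τ * u))) hX hs hsY hYr hm hx1 hx1m hrXY hε hε'
    ((continuous_fc a t ν).comp_continuousOn hβc)
    ((continuous_fc a t ν).comp (P.continuous_extend.comp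
      (continuous_const.mul continuous_id))).continuousOn
    (by
      intro u hu
      obtain ⟨q1, q2, q3, q4, q5, q6⟩ := hβR u hu
      exact ⟨q1, q2, q3, q4, q5, q6⟩)
    (by
      intro u hu
      have hu' : τ * u ∈ Ico 0 τ := ⟨mul_nonneg hτ0.le hu.1, by
        calc τ * u < τ * 1 := mul_lt_mul_of_pos_left hu.2 hτ0
          _ = τ := mul_one τ⟩
      obtain ⟨q1, q2, q3, q4, q5, q6⟩ := hτ2 _ hu'
      exact ⟨q1, q2, q3, q4, q5, q6⟩)
    hβ1 (by simpa only [mul_one, fc_0, fc_1] using hGneg _ hτG.1) hβ2 (by simpa only [mul_one, fc_0, fc_1] using g3)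
    hβ5 hβ3 hβ4 (by simpa only [mul_one, fc_0, fc_1] using hτR) (by simpa only [mul_one, fc_0, fc_1] using g1)
    (by simpa only [mul_one, fc_0, fc_1] using g2) (by simpa only [mul_one, fc_0, fc_1] using hτL)
    (by
      simp only [mul_zero, P.extend_zero, fc_0]
      have h1 : |⟪x0 - a, t⟫| ≤ ‖x0 - a‖ := by
        have := abs_real_inner_le_norm (x0 - a) t
        rwa [hON.nt, mul_one] at this
      have h2 : |⟪β 0 - (a + x1 • t), t⟫| ≤ ‖β 0 - (a + x1 • t)‖ := by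
        have := abs_real_inner_le_norm (β 0 - (a + x1 • t)) t
        rwa [hON.nt, mul_one] at this
      have h3 : ⟪β 0 - (a + x1 • t), t⟫ = ⟪β 0 - a, t⟫ - x1 := by
        have : β 0 - (a + x1 • t) = (β 0 - a) - x1 • t := by abel
        rw [this, inner_sub_left, real_inner_smul_left, real_inner_self_eq_norm_sq, hON.nt]
        ring
      rw [h3, ← dist_eq_norm] at h2
      rw [← dist_eq_norm] at h1
      have h4 := abs_le.1 h1
      have h5 := abs_le.1 h2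
      linarith [h4.2, h5.1])
    (by
      simp only [mul_zero, P.extend_zero]
      exact hF x0 hx0a)
    (by
      rw [← hON.fc_add a x1, hON.dist]
      exact hβ0)
    (by
      intro u hu
      rw [← fc_self a t ν, hON.dist]
      by_contra hcon
      rw [not_le] at hcon
      exact hb1 (mem_ball.2 (hcon.trans_le hεa)) ⟨u, hu, rfl⟩)
    (by
      intro u hu
      rw [← hON.fc_add a x1, hON.dist]
      by_contra hcon
      rw [not_le] at hcon
      have hu' : τ * u ∈ Icc (0 : ℝ) 1 := ⟨mul_nonneg hτ0.le hu.1, mul_le_one₀ hτ1 hu.1 hu.2⟩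
      exact (Set.disjoint_left.1 hball) (mem_ball.2 hcon) (subset_closure (hUsub (hpe _ hu')).1))
    (by
      intro z hz
      rcases hz with hz | hz
      · obtain ⟨q1, q2, q3, q4, q5⟩ := hb2 (mem_ball.2 (hz.trans_le hεb))
        exact ⟨q1, q2, q3, q4⟩
      · exact hball2 z hz)
  have hu'' : τ * u' ∈ Icc (0 : ℝ) 1 := ⟨mul_nonneg hτ0.le hu'.1, mul_le_one₀ hτ1 hu'.1 hu'.2⟩
  have heq : β u = P.extend (τ * u') := hON.inj a huu
  exact hβG u hu (heq ▸ subset_closure (hUsub (hpe _ hu'')).1)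

/-- Numerical facts. -/
theorem numeric (ρ M m : ℝ) (hρ : Real.exp 100 ≤ ρ) (hM : 0 < M)
    (hMρ : M ≤ ρ / Real.sqrt (Real.log ρ)) (hm : 0 < m) (hmM : m ≤ M) :
    ∃ X Y r : ℝ, Num X Y m r (M ^ 2 / ρ + 30 * Real.log ρ) ∧ 0 ≤ Real.log ρ ∧
      (r + 2 * Real.log ρ) ^ 2 < X ^ 2 + Y ^ 2 ∧
      (m + 2 * X) ^ 2 + Y ^ 2 ≤ ((1 - 1 / Real.log ρ) * ρ) ^ 2 ∧
      0 ≤ (1 - 1 / Real.log ρ) * ρ := by
  have hρ0 : 0 < ρ := (Real.exp_pos _).trans_le hρ
  obtain ⟨l, hl⟩ : ∃ l, l = Real.log ρ := ⟨_, rfl⟩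
  have hl100 : 100 ≤ l := by
    rw [hl, Real.le_log_iff_exp_le hρ0]
    exact hρ
  have hl0 : 0 < l := by linarith
  have hρl : 400 * l ^ 2 ≤ ρ := by
    have h1 : l ^ 4 / 24 ≤ ρ := by
      have := Real.pow_div_factorial_le_exp l hl0.le 4
      rw [hl, Real.exp_log hρ0, ← hl] at this
      simpa [Nat.factorial] using this
    have h2 : 400 * l ^ 2 ≤ l ^ 4 / 24 := by
      have : 9600 ≤ l ^ 2 := by nlinarith
      nlinarith [sq_nonneg l]
    linarith
  rw [← hl] at hMρ ⊢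
  have hρl1 : 40000 * l ≤ ρ := by nlinarith
  -- `M ^ 2 ≤ ρ ^ 2 / l`
  have hM2 : M ^ 2 * l ≤ ρ ^ 2 := by
    have h1 : M ^ 2 ≤ (ρ / Real.sqrt l) ^ 2 := pow_le_pow_left₀ hM.le hMρ 2
    rw [div_pow, Real.sq_sqrt hl0.le] at h1
    rwa [le_div_iff₀ hl0] at h1
  obtain ⟨hh, hhh⟩ : ∃ hh, hh = 2 * l + 1 := ⟨_, rfl⟩
  obtain ⟨r, hr⟩ : ∃ r, r = (1 - 3 / l) * ρ := ⟨_, rfl⟩
  have hrl : r * l = (l - 3) * ρ := by
    rw [hr]
    field_simp
  have hr97 : 97 / 100 * ρ ≤ r := by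
    rw [hr]
    have : 3 / l ≤ 3 / 100 := by
      rw [div_le_div_iff₀ hl0 (by norm_num)]
      linarith
    nlinarith
  have hrρ : r ≤ ρ := by
    rw [hr]
    have : 0 ≤ 3 / l := by positivity
    nlinarith
  have hr0 : 0 < r := by linarith
  have hh0 : 0 < hh := by linarith
  have hXsq : (2 * Real.sqrt (r * hh)) ^ 2 = 4 * r * hh := by
    rw [mul_pow, Real.sq_sqrt (by positivity)]
    ring
  have hX0 : 0 < 2 * Real.sqrt (r * hh) := by
    have := Real.sqrt_pos.2 (mul_pos hr0 hh0)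
    linarith
  obtain ⟨X, hX⟩ : ∃ X, X = 2 * Real.sqrt (r * hh) := ⟨_, rfl⟩
  rw [← hX] at hXsq hX0
  obtain ⟨A, hA⟩ : ∃ A, A = M ^ 2 / ρ := ⟨_, rfl⟩
  have hAρ : A * ρ = M ^ 2 := by rw [hA]; field_simp
  have hA0 : 0 < A := by rw [hA]; positivity
  have hAl : A * l ≤ ρ := by
    have : A * l * ρ ≤ ρ * ρ := by nlinarith
    exact le_of_mul_le_mul_right this hρ0
  have hA100 : A ≤ ρ / 100 := by nlinarith
  refine ⟨X, r - hh, r, ⟨hX0, ?_, ?_, by linarith, hm, ?_⟩, hl0.le, ?_, ?_, ?_⟩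
  · rw [← hA]; positivity
  · rw [← hA]; linarith
  · rw [← hA]
    have hm2 : m ^ 2 ≤ A * ρ := by rw [hAρ]; exact pow_le_pow_left₀ hm.le hmM 2
    have h1 : (m / 2 + X) ^ 2 ≤ A * ρ / 2 + 8 * r * hh := by
      nlinarith [sq_nonneg (m / 2 - X)]
    obtain ⟨B, hB⟩ : ∃ B, B = hh + A + 30 * l := ⟨_, rfl⟩
    have hB0 : 0 < B := by rw [hB]; positivity
    have hBr : B ≤ r / 50 := by rw [hB]; linarith
    have h2 : (r - hh - (A + 30 * l)) ^ 2 = r ^ 2 - (2 * r - B) * B := by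
      rw [hB]; ring
    rw [h2]
    have h3 : 19 / 10 * r * B ≤ (2 * r - B) * B := by
      apply mul_le_mul_of_nonneg_right _ hB0.le
      linarith
    have h4 : A * ρ / 2 + 8 * r * hh < 19 / 10 * r * B := by
      rw [hB]
      have h5 : A * ρ / 2 ≤ 19 / 10 * r * A := by nlinarith
      have h6 : 8 * r * hh < 19 / 10 * r * (hh + 30 * l) := by
        have : 8 * hh < 19 / 10 * (hh + 30 * l) := by linarith
        nlinarith
      nlinarith
    linarith
  · have : X ^ 2 + (r - hh) ^ 2 = (r + hh) ^ 2 := by rw [hXsq]; ring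
    rw [this]
    apply pow_lt_pow_left₀ _ (by positivity) (by norm_num)
    linarith
  · have hm2 : m ^ 2 * l ≤ ρ ^ 2 := by
      refine le_trans ?_ hM2
      exact mul_le_mul_of_nonneg_right (pow_le_pow_left₀ hm.le hmM 2) hl0.le
    have h1 : (m + 2 * X) ^ 2 ≤ 2 * m ^ 2 + 8 * X ^ 2 := by nlinarith [sq_nonneg (m - 2 * X)]
    rw [hXsq] at h1
    have h2 : (r - hh) ^ 2 ≤ r ^ 2 := by
      apply pow_le_pow_left₀ _ (by linarith)
      linarith
    have h3 : (2 * m ^ 2 + 8 * (4 * r * hh) + r ^ 2) * l ^ 2 ≤ (((l - 1) * ρ)) ^ 2 := by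
      have e1 : r ^ 2 * l ^ 2 = ((l - 3) * ρ) ^ 2 := by rw [← hrl]; ring
      have e2 : 2 * m ^ 2 * l ^ 2 ≤ 2 * ρ ^ 2 * l := by nlinarith
      have e3 : 8 * (4 * r * hh) * l ^ 2 ≤ ρ ^ 2 * l := by
        have e4 : r * hh ≤ ρ * (3 * l) := by
          apply mul_le_mul hrρ (by linarith) hh0.le hρ0.le
        have e5 : 8 * (4 * r * hh) * l ^ 2 ≤ 96 * ρ * l * l ^ 2 := by nlinarith [sq_nonneg l]
        have e6 : 96 * l ^ 2 ≤ ρ := by nlinarith [sq_nonneg l]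
        have e7 : 96 * ρ * l * l ^ 2 = (ρ * l) * (96 * l ^ 2) := by ring
        have e8 : ρ ^ 2 * l = (ρ * l) * ρ := by ring
        rw [e7] at e5
        rw [e8]
        exact e5.trans (mul_le_mul_of_nonneg_left e6 (by positivity))
      have e9 : ((l - 1) * ρ) ^ 2 = ((l - 3) * ρ) ^ 2 + (4 * l - 8) * ρ ^ 2 := by ring
      have e10 : 3 * l * ρ ^ 2 ≤ (4 * l - 8) * ρ ^ 2 := by
        apply mul_le_mul_of_nonneg_right _ (by positivity)
        linarith
      nlinarith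
    have h4 : ((1 - 1 / l) * ρ) ^ 2 = ((l - 1) * ρ) ^ 2 / l ^ 2 := by
      field_simp
    rw [h4]
    calc (m + 2 * X) ^ 2 + (r - hh) ^ 2 ≤ 2 * m ^ 2 + 8 * (4 * r * hh) + r ^ 2 := by linarith
      _ ≤ _ := by
        rw [le_div_iff₀ (by positivity)]
        exact h3
  · have : 1 / l ≤ 1 := by
      rw [div_le_one hl0]
      linarith
    apply mul_nonneg _ hρ0.le
    linarith

/-- Points near the mouth point. -/
theorem near {X Y m r s : ℝ} (hX : 0 < X) (hs : 0 < s) (hXY : r ^ 2 < X ^ 2 + Y ^ 2) (x1 : ℝ)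
    (h0 : 0 < x1) (h1 : x1 < m) : ∃ ε > 0, ∀ z : E2, Dist.dist z !₂[x1, 0] < ε →
      (r ^ 2 < (z 0 + X) ^ 2 + (z 1 + Y) ^ 2 ∧ r ^ 2 < (z 0 - m - X) ^ 2 + (z 1 + Y) ^ 2 ∧
      -X < z 0 ∧ z 0 < m + X) ∧ -s < z 1 := by
  have hO : IsOpen {z : E2 | r ^ 2 < (z 0 + X) ^ 2 + (z 1 + Y) ^ 2 ∧
      r ^ 2 < (z 0 - m - X) ^ 2 + (z 1 + Y) ^ 2 ∧ -X < z 0 ∧ z 0 < m + X ∧ -s < z 1} := by
    have c1 : Continuous (fun x : E2 => x 0) := by fun_prop
    have c2 : Continuous (fun x : E2 => x 1) := by fun_prop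
    exact (isOpen_lt continuous_const
      (((c1.add continuous_const).pow 2).add ((c2.add continuous_const).pow 2))).inter
      ((isOpen_lt continuous_const
      ((((c1.sub continuous_const).sub continuous_const).pow 2).add
        ((c2.add continuous_const).pow 2))).inter
      ((isOpen_lt continuous_const c1).inter
      ((isOpen_lt c1 continuous_const).inter (isOpen_lt continuous_const c2))))
  have h0O : (!₂[x1, 0] : E2) ∈ {z : E2 | r ^ 2 < (z 0 + X) ^ 2 + (z 1 + Y) ^ 2 ∧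
      r ^ 2 < (z 0 - m - X) ^ 2 + (z 1 + Y) ^ 2 ∧ -X < z 0 ∧ z 0 < m + X ∧ -s < z 1} := by
    have e0 : (!₂[x1, 0] : E2) 0 = x1 := rfl
    have e1 : (!₂[x1, 0] : E2) 1 = 0 := rfl
    show r ^ 2 < ((!₂[x1, 0] : E2) 0 + X) ^ 2 + ((!₂[x1, 0] : E2) 1 + Y) ^ 2 ∧
      r ^ 2 < ((!₂[x1, 0] : E2) 0 - m - X) ^ 2 + ((!₂[x1, 0] : E2) 1 + Y) ^ 2 ∧
      -X < (!₂[x1, 0] : E2) 0 ∧ (!₂[x1, 0] : E2) 0 < m + X ∧ -s < (!₂[x1, 0] : E2) 1
    rw [e0, e1]
    refine ⟨by nlinarith, ?_, by linarith, by linarith, by linarith⟩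
    have : X ^ 2 ≤ (x1 - m - X) ^ 2 := by
      rw [show (x1 - m - X) ^ 2 = (X + (m - x1)) ^ 2 by ring]
      apply pow_le_pow_left₀ hX.le
      linarith
    nlinarith
  obtain ⟨ε2, hε2, hb2⟩ := Metric.isOpen_iff.1 hO _ h0O
  refine ⟨ε2, hε2, fun z hz => ?_⟩
  obtain ⟨q1, q2, q3, q4, q5⟩ := hb2 (mem_ball.2 hz)
  exact ⟨⟨q1, q2, q3, q4⟩, q5⟩

end Y3

open Y3

theorem prn_Y3 (hk0 : T_K0) (hk2 : T_K2) (hk4 : T_K4) (hy2 : S_Y2) : S_Y3 := by
  intro hC
  refine ⟨Real.exp 100, Real.one_lt_exp_iff.2 (by norm_num), ?_⟩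
  intro ρ M G hρ hG hGc hB hM hMρ hface Q hQ x₁ hx₁ ν hSup z hz
  by_contra hcon
  rw [not_le] at hcon
  obtain ⟨hQo, hQext, hQc, hHc, hHconv, hHne, hGH, -, -⟩ :=
    hk2 G Q hG.isOpen hG.isConnected.nonempty hG.isBounded hQ
  obtain ⟨-, hk4', -, -⟩ := hk4 G hG.isOpen hG.isConnected.nonempty hG.isBounded
  obtain ⟨ε1, hε1, -, hdisj⟩ := hk4' Q hQ x₁ hx₁
  have hx₁G : x₁ ∉ closure G := hx₁.2.2
  obtain ⟨a, ha, b, hb, hseg, ha0, hb0, hab⟩ := hk0 G x₁ ν hG.isBounded hx₁G hSup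
  obtain ⟨hν, hx₁H, hSup'⟩ := id hSup
  obtain ⟨c, d, hc, hd, hcd, hx⟩ := hseg
  -- the mouth segment
  obtain ⟨m, hmd⟩ : ∃ m, m = ‖b - a‖ := ⟨_, rfl⟩
  have hm : 0 < m := by
    rw [hmd]
    exact norm_pos_iff.2 (sub_ne_zero.2 hab.symm)
  obtain ⟨t, htd⟩ : ∃ t, t = m⁻¹ • (b - a) := ⟨_, rfl⟩
  have hmt : m • t = b - a := by
    rw [htd, smul_smul, mul_inv_cancel₀ hm.ne', one_smul]
  have hbt : b = a + m • t := by rw [hmt]; abel
  have haH : a ∈ hull G := subset_convexHull ℝ _ ha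
  have hbH : b ∈ hull G := subset_convexHull ℝ _ hb
  have hba : ⟪b - a, ν⟫ = 0 := by
    have : b - a = (b - x₁) - (a - x₁) := by abel
    rw [this, inner_sub_left, hb0, ha0, sub_zero]
  have hON : ON t ν := by
    refine ⟨?_, hν, ?_⟩
    · rw [htd, norm_smul, ← hmd, norm_inv, Real.norm_eq_abs, abs_of_pos hm,
        inv_mul_cancel₀ hm.ne']
    · rw [htd, real_inner_smul_left, hba, mul_zero]
  have hshift : ∀ x : E2, ⟪x - a, ν⟫ = ⟪x - x₁, ν⟫ := by
    intro x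
    have : x - a = (x - x₁) - (a - x₁) := by abel
    rw [this, inner_sub_left, ha0, sub_zero]
  have hshiftb : ∀ x : E2, ⟪x - b, ν⟫ = ⟪x - a, ν⟫ := by
    intro x
    have : x - b = (x - a) - (b - a) := by abel
    rw [this, inner_sub_left, hba, sub_zero]
  have hmM : m ≤ M := by
    rw [hmd]
    refine hface a b ν ⟨hν, haH, fun y hy => ?_⟩ hbH hba
    rw [hshift]
    exact hSup' y hy
  obtain ⟨x1, hx1d⟩ : ∃ x1, x1 = d * m := ⟨_, rfl⟩
  have hx1 : 0 < x1 := by rw [hx1d]; positivity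
  have hx1m : x1 < m := by
    rw [hx1d]
    have : d < 1 := by linarith
    nlinarith
  have hxa : x₁ = a + x1 • t := by
    rw [hx1d, mul_smul, hmt, ← hx, smul_sub]
    have : c = 1 - d := by linarith
    rw [this, sub_smul, one_smul]
    abel
  have hxb : x₁ = b + (m - x1) • (-t) := by
    rw [hxa, hbt, smul_neg, sub_smul]
    abel
  -- the open half plane
  have hint : ∀ x ∈ interior (hull G), ⟪x - a, ν⟫ < 0 := by
    intro x hx
    obtain ⟨δ, hδ, hbδ⟩ := Metric.isOpen_iff.1 isOpen_interior x hx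
    have h1 : x + (δ / 2) • ν ∈ hull G := by
      apply interior_subset
      apply hbδ
      rw [mem_ball, dist_eq_norm, add_sub_cancel_left, norm_smul, hν, mul_one,
        Real.norm_eq_abs, abs_of_pos (by linarith)]
      linarith
    have h2 := hSup' _ h1
    have h3 : x + (δ / 2) • ν - x₁ = (x - x₁) + (δ / 2) • ν := by abel
    rw [h3, inner_add_left, real_inner_smul_left, real_inner_self_eq_norm_sq, hν,
      ← hshift] at h2
    linarith
  have hGneg : ∀ x ∈ G, ⟪x - a, ν⟫ < 0 := fun x hx => hint x (hGH hx)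
  have hQneg : ∀ x ∈ Q, ⟪x - a, ν⟫ < 0 := fun x hx => hint x (hQext hx).1
  obtain ⟨X, Y, r, hN, hlog, hXY, hfar, h1ρ⟩ := numeric ρ M m hρ hM hMρ hm hmM
  obtain ⟨s, hs⟩ : ∃ s, s = M ^ 2 / ρ + 30 * Real.log ρ := ⟨_, rfl⟩
  rw [← hs] at hN hcon
  have hrXY : r ^ 2 < X ^ 2 + Y ^ 2 := by
    have hr : 0 < r := by linarith [hN.hs, hN.hsY, hN.hYr]
    nlinarith
  obtain ⟨ε2, hε2, hn2⟩ := near (Y := Y) (m := m) (r := r) hN.hX hN.hs hrXY x1 hx1 hx1m
  obtain ⟨ε3, hε3, hn3⟩ := near (Y := Y) (m := m) (r := r) hN.hX hN.hs hrXY (m - x1)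
    (by linarith) (by linarith)
  obtain ⟨ε, hεd⟩ : ∃ ε, ε = min ε1 (min ε2 (min ε3 (min (x1 / 2) ((m - x1) / 2)))) := ⟨_, rfl⟩
  have hε : 0 < ε := by
    rw [hεd]
    exact lt_min hε1 (lt_min hε2 (lt_min hε3 (lt_min (by linarith) (by linarith))))
  have hεa : ε ≤ ε1 := by rw [hεd]; exact min_le_left _ _
  have hεr : ε ≤ min ε2 (min ε3 (min (x1 / 2) ((m - x1) / 2))) := by
    rw [hεd]; exact min_le_right _ _
  have hεb : ε ≤ ε2 := hεr.trans (min_le_left _ _)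
  have hεr' : ε ≤ min ε3 (min (x1 / 2) ((m - x1) / 2)) := hεr.trans (min_le_right _ _)
  have hεc : ε ≤ ε3 := hεr'.trans (min_le_left _ _)
  have hεr'' : ε ≤ min (x1 / 2) ((m - x1) / 2) := hεr'.trans (min_le_right _ _)
  have hεd1 : ε ≤ x1 / 2 := hεr''.trans (min_le_left _ _)
  have hεd2 : ε ≤ (m - x1) / 2 := hεr''.trans (min_le_right _ _)
  -- the starting point of `β`
  obtain ⟨q, hqQ, hqx⟩ : ∃ q ∈ Q, Dist.dist q x₁ < ε := by
    have : x₁ ∈ closure Q := frontier_subset_closure hx₁.1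
    obtain ⟨q, hq, hqd⟩ := Metric.mem_closure_iff.1 this ε hε
    exact ⟨q, hq, by rwa [dist_comm]⟩
  have hqR : q ∈ Rg a t ν X Y m r s := by
    have h1 : Dist.dist (fc a t ν q) !₂[x1, 0] < ε2 := by
      rw [← hON.fc_add a x1, hON.dist, ← hxa]
      exact hqx.trans_le hεb
    obtain ⟨⟨q1, q2, q3, q4⟩, q5⟩ := hn2 _ h1
    exact ⟨q3, q4, q5, hQneg q hqQ, q1, q2⟩
  have hzR : z ∉ Rg a t ν X Y m r s := by
    rintro ⟨-, -, h3, -⟩
    rw [hshift, ← neg_sub, inner_neg_left] at h3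
    linarith
  have hQp : IsPathConnected Q := hQo.isConnected_iff_isPathConnected.1 hQc
  obtain ⟨P, hP⟩ := hQp.joinedIn q hqQ z hz
  have hpe : ∀ u ∈ Icc (0 : ℝ) 1, P.extend u ∈ Q := by
    intro u hu
    rw [Path.extend_apply P hu]
    exact hP _
  obtain ⟨τ, hτ0, hτ1, hτ2, hτ3, hτ4⟩ := first_exit _ (isOpen_Rg a t ν X Y m r s)
    P.extend P.continuous_extend.continuousOn (by rw [P.extend_zero]; exact hqR)
    (by rw [P.extend_one]; exact hzR)
  have hτQ : P.extend τ ∈ Q := hpe τ ⟨hτ0.le, hτ1⟩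
  obtain ⟨g1, g2, g3, g4⟩ := exit_pt hN _ hτ4 hτ3 (hQneg _ hτQ)
  have hβc : ContinuousOn (fun u => P.extend (τ * u)) (Icc 0 1) :=
    (P.continuous_extend.comp (continuous_const.mul continuous_id)).continuousOn
  have hβG : ∀ u ∈ Icc (0 : ℝ) 1, P.extend (τ * u) ∉ closure G := by
    intro u hu
    have hu' : τ * u ∈ Icc (0 : ℝ) 1 := ⟨mul_nonneg hτ0.le hu.1, mul_le_one₀ hτ1 hu.1 hu.2⟩
    exact (hQext (hpe _ hu')).2
  have hβR : ∀ u ∈ Ico (0 : ℝ) 1, P.extend (τ * u) ∈ Rg a t ν X Y m r s := by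
    intro u hu
    have hu' : τ * u ∈ Ico 0 τ := ⟨mul_nonneg hτ0.le hu.1, by
      calc τ * u < τ * 1 := mul_lt_mul_of_pos_left hu.2 hτ0
        _ = τ := mul_one τ⟩
    exact hτ2 _ hu'
  have hballx : Disjoint (ball x₁ ε) (closure G) := hdisj.mono_left (ball_subset_ball hεa)
  rcases g4 with g4 | g4
  · refine core hy2 hC hG.isOpen hB hON hN hlog hXY hfar h1ρ hx1 hx1m ha hGneg ε hε hεd1
      (by rw [← hxa]; exact hballx) (fun y hy => (hn2 y (hy.trans_le hεb)).1)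
      (fun u => P.extend (τ * u)) hβc hβG ?_ hβR ?_ ?_ ?_ ?_ ?_
    · simp only [mul_zero, P.extend_zero]
      rw [← hxa]
      exact hqx
    · simp only [mul_one]
      exact hQneg _ hτQ
    · simp only [mul_one]
      exact g3
    · simp only [mul_one]
      exact g1
    · simp only [mul_one]
      exact g2
    · simp only [mul_one]
      exact g4
  · have e1 : ∀ x : E2, ⟪x - b, -t⟫ = m - ⟪x - a, t⟫ := by
      intro x
      have : x - b = (x - a) - m • t := by rw [hbt]; abel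
      rw [this, inner_neg_right, inner_sub_left, real_inner_smul_left,
        real_inner_self_eq_norm_sq, hON.nt]
      ring
    have hRb : Rg b (-t) ν X Y m r s = Rg a t ν X Y m r s := by
      rw [hbt]
      exact Rg_symm a t ν X Y m r s hON
    refine core hy2 hC hG.isOpen hB hON.neg hN hlog hXY hfar h1ρ (x1 := m - x1)
      (by linarith) (by linarith) hb
      (fun x hx => by rw [hshiftb]; exact hGneg x hx) ε hε hεd2
      (by rw [← hxb]; exact hballx) (fun y hy => (hn3 y (hy.trans_le hεc)).1)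
      (fun u => P.extend (τ * u)) hβc hβG ?_ (by rw [hRb]; exact hβR) ?_ ?_ ?_ ?_ ?_
    · simp only [mul_zero, P.extend_zero]
      rw [← hxb]
      exact hqx
    · simp only [mul_one]
      rw [hshiftb]
      exact hQneg _ hτQ
    · simp only [mul_one]
      rw [hshiftb]
      exact g3
    · simp only [mul_one]
      rw [e1]
      linarith
    · simp only [mul_one]
      rw [e1]
      linarith
    · simp only [mul_one]
      rw [e1, hshiftb, ← g4]
      ring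

end Pool.Agent.Robin
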